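import Mathlib
import Pool.Agent.WordPSL2.Main

set_option autoImplicit false

/-!
# Word maps on `PSL₂` in characteristic zero: one explicit curve for all words

The problem `MP_dc02f5_al`, Q1, with an explicit one-parameter family of tuples of matrices, with
entries in `ℤ[t]`, which serves for all words and all fields at once.
-/

open Matrix MatrixGroups

namespace Pool.Agent.Results.MP_dc02f5_al.OneCurve

universe u

/-- The matrices `g 0 t, g 1 t, g 2 t, …` of `SL₂(K)`; their entries are polynomials of degree one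
in `t` with integer coefficients. -/
def g (K : Type u) [Field K] (n : ℕ) (t : K) : SL(2, K) :=
  ⟨!![(2 * n + 1) * t + (4 * n + 1), -t - 2;
      2 * n * (2 * n + 1) * t + ((2 * n + 1) ^ 2 + (2 * n) ^ 2), -(2 * n * t) - (4 * n + 1)], by
    rw [det_fin_two_of]; ring⟩

section aux

variable {K : Type u} [Field K]

theorem map_genM (n : ℕ) (t : K) :
    SpecialLinearGroup.map (Polynomial.evalRingHom t) (Pool.Agent.WordPSL2.genM K n) = g K n t := by
  ext i j
  rw [SpecialLinearGroup.map_apply_coe, RingHom.mapMatrix_apply, Matrix.map_apply,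
    Pool.Agent.WordPSL2.genM, Pool.Agent.WordPSL2.coe_mkSL]
  fin_cases i <;> fin_cases j <;> simp [g]

theorem exists_fin (w : FreeGroup ℕ) :
    ∃ m : ℕ, ∀ m' : ℕ, m ≤ m' → ∃ w' : FreeGroup (Fin m'), FreeGroup.map Fin.val w' = w := by
  induction w using FreeGroup.induction_on with
  | C1 => exact ⟨0, fun m' _ => ⟨1, map_one _⟩⟩
  | of i => exact ⟨i + 1, fun m' h => ⟨FreeGroup.of ⟨i, h⟩, FreeGroup.map.of⟩⟩
  | inv_of i _ =>
    exact ⟨i + 1, fun m' h => ⟨(FreeGroup.of ⟨i, h⟩)⁻¹, by rw [map_inv, FreeGroup.map.of]⟩⟩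
  | mul a b ha hb =>
    obtain ⟨m, hm⟩ := ha
    obtain ⟨k, hk⟩ := hb
    refine ⟨max m k, fun m' h => ?_⟩
    obtain ⟨a', ha'⟩ := hm m' (le_trans (le_max_left _ _) h)
    obtain ⟨b', hb'⟩ := hk m' (le_trans (le_max_right _ _) h)
    exact ⟨a' * b', by rw [map_mul, ha', hb']⟩

theorem lift_map {α β G : Type*} [Group G] (f : α → β) (x : β → G) (w : FreeGroup α) :
    FreeGroup.lift x (FreeGroup.map f w) = FreeGroup.lift (fun i => x (f i)) w := by
  have : (FreeGroup.lift x).comp (FreeGroup.map f) = FreeGroup.lift (fun i => x (f i)) := by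
    ext i
    simp
  rw [← this]
  rfl

theorem scalar_of {A : SL(2, K)} (h : A 0 1 = 0 ∧ A 1 0 = 0 ∧ A 0 0 = A 1 1) :
    A = 1 ∨ A = -1 := by
  have hd := A.det_coe
  rw [det_fin_two, h.1, ← h.2.2] at hd
  have h1 : (A 0 0 - 1) * (A 0 0 + 1) = 0 := by linear_combination hd
  rcases mul_eq_zero.mp h1 with h2 | h2
  · left
    have h3 : A 0 0 = 1 := by linear_combination h2
    have h4 : A 1 1 = 1 := by rw [← h.2.2, h3]
    ext i j
    fin_cases i <;> fin_cases j
    · simpa using h3
    · simpa using h.1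
    · simpa using h.2.1
    · simpa using h4
  · right
    have h3 : A 0 0 = -1 := by linear_combination h2
    have h4 : A 1 1 = -1 := by rw [← h.2.2, h3]
    ext i j
    fin_cases i <;> fin_cases j
    · simpa using h3
    · simpa using h.1
    · simpa using h.2.1
    · simpa using h4

theorem curve_fin [IsAlgClosed K] [CharZero K] {m : ℕ} (w : FreeGroup (Fin m)) (hw : w ≠ 1)
    (A : SL(2, K)) (h1 : A ≠ 1) (h2 : A ≠ -1) :
    ∃ (t : K) (h : SL(2, K)),
      FreeGroup.lift (fun i : Fin m => h * g K i.val t * h⁻¹) w = A ∨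
      FreeGroup.lift (fun i : Fin m => h * g K i.val t * h⁻¹) w = -A := by
  obtain ⟨t, h, hh⟩ := Pool.Agent.WordPSL2.exists_value w hw A (fun hs => by
    rcases scalar_of hs with h3 | h3
    · exact h1 h3
    · exact h2 h3)
  refine ⟨t, h, ?_⟩
  have key : FreeGroup.lift (fun i : Fin m => h * g K i.val t * h⁻¹) w
      = h * Pool.Agent.WordPSL2.wordAt K w t * h⁻¹ := by
    have h3 := Pool.Agent.WordPSL2.map_lift (MulAut.conj h).toMonoidHom
      (fun i : Fin m => g K i.val t) w
    have h4 : Pool.Agent.WordPSL2.wordAt K w t = FreeGroup.lift (fun i : Fin m => g K i.val t) w := by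
      rw [Pool.Agent.WordPSL2.wordAt]
      simp only [map_genM]
    rw [h4]
    exact h3
  rw [key]
  rcases hh with hh | hh
  · exact Or.inl hh.symm
  · right
    rw [hh, neg_neg]

end aux

/-- Let `K` be an algebraically closed field of characteristic zero (in any universe).
(1) For every nontrivial word `w` in the letters `x_0, x_1, …` every matrix `A ≠ ±1` of `SL₂(K)` is,
up to sign, the value of `w` at the tuple `(h g_0(t) h⁻¹, h g_1(t) h⁻¹, …)` for some `t ∈ K` and
`h ∈ SL₂(K)`. (2) For every `m` and every nontrivial word `w` in `m` letters each `A ∈ SL₂(K)` is up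
to sign a value of `w` on `SL₂(K)`, and the word map `w` on `PSL₂(K)` is surjective. -/
theorem result (K : Type u) [Field K] [IsAlgClosed K] [CharZero K] :
    (∀ w : FreeGroup ℕ, w ≠ 1 → ∀ A : SL(2, K), A ≠ 1 → A ≠ -1 →
      ∃ (t : K) (h : SL(2, K)),
        FreeGroup.lift (fun n : ℕ => h * g K n t * h⁻¹) w = A ∨
        FreeGroup.lift (fun n : ℕ => h * g K n t * h⁻¹) w = -A) ∧
    (∀ (m : ℕ) (w : FreeGroup (Fin m)), w ≠ 1 →
      (∀ A : SL(2, K), ∃ x : Fin m → SL(2, K),
        FreeGroup.lift x w = A ∨ FreeGroup.lift x w = -A) ∧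
      Function.Surjective (fun x : Fin m → PSL(2, K) => FreeGroup.lift x w)) := by
  refine ⟨fun w hw A h1 h2 => ?_, fun m w hw => ⟨fun A => ?_, ?_⟩⟩
  · obtain ⟨m, hm⟩ := exists_fin w
    obtain ⟨w', rfl⟩ := hm m le_rfl
    have hw' : w' ≠ 1 := by
      rintro rfl
      exact hw (map_one _)
    obtain ⟨t, h, hh⟩ := curve_fin w' hw' A h1 h2
    refine ⟨t, h, ?_⟩
    rw [lift_map]
    exact hh
  · by_cases h1 : A = 1
    · refine ⟨fun _ => 1, Or.inl ?_⟩
      rw [h1]
      have : FreeGroup.lift (fun _ : Fin m => (1 : SL(2, K))) = 1 := by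
        ext i
        simp
      rw [this]
      rfl
    · by_cases h2 : A = -1
      · refine ⟨fun _ => 1, Or.inr ?_⟩
        rw [h2, neg_neg]
        have : FreeGroup.lift (fun _ : Fin m => (1 : SL(2, K))) = 1 := by
          ext i
          simp
        rw [this]
        rfl
      · obtain ⟨t, h, hh⟩ := curve_fin w hw A h1 h2
        exact ⟨_, hh⟩
  · exact Pool.Agent.WordPSL2.surjective_word w hw

end Pool.Agent.Results.MP_dc02f5_al.OneCurve
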